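import Pool.Agent.Q134.FA.Main

set_option autoImplicit false

/-!
Property (FA) passes from a dense subgroup to all actions on trees with profinitely closed edge
stabilizers.
-/

namespace Pool.Agent.Results.MP_d2e081_al.SeparableEdges

open Pool.Agent.Q134.FA

/-- `u` is onto on profinite completions -/
def Onto {G H : Type} [Group G] [Group H] (u : G →* H) : Prop :=
  ∀ M : Subgroup H, M.Normal → M.index ≠ 0 → ∀ h : H, ∃ g : G, ∃ m ∈ M, h = u g * m

/-- the subgroup `C` is closed in the profinite topology -/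
def Closed {H : Type} [Group H] (C : Subgroup H) : Prop :=
  ∀ h : H, h ∉ C → ∃ M : Subgroup H, M.Normal ∧ M.index ≠ 0 ∧ ∀ m ∈ M, h * m ∉ C

/-- an action on the tree `T`, by automorphisms, without inversions -/
structure TreeAction (H : Type) [Group H] (V : Type) [MulAction H V] (T : SimpleGraph V) : Prop where
  tree : T.IsTree
  adj : ∀ (h : H) (x y : V), T.Adj x y → T.Adj (h • x) (h • y)
  noinv : ∀ (h : H) (x y : V), T.Adj x y → ¬ (h • x = y ∧ h • y = x)

/-- property (FA) -/
def FA (G : Type) [Group G] : Prop :=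
  ∀ (V : Type) [MulAction G V] (T : SimpleGraph V), TreeAction G V T → ∃ v : V, ∀ g : G, g • v = v

/-- residually finite -/
def RF (H : Type) [Group H] : Prop :=
  ∀ h : H, h ≠ 1 → ∃ M : Subgroup H, M.Normal ∧ M.index ≠ 0 ∧ h ∉ M

/-- the stabilizer of the edge `v w` (there are no inversions) -/
def edgeStab (H : Type) [Group H] {V : Type} [MulAction H V] (v w : V) : Subgroup H :=
  MulAction.stabilizer H v ⊓ MulAction.stabilizer H w

lemma closed_finite {H : Type} [Group H] (hH : RF H) (C : Subgroup H) (hC : Finite C) :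
    Closed C := by
  classical
  intro h hh
  have h1 : ∀ c : C, ∃ M : Subgroup H, M.Normal ∧ M.index ≠ 0 ∧ h⁻¹ * (c : H) ∉ M := by
    intro c
    refine hH _ (fun h0 => hh ?_)
    have : h = (c : H) := (inv_mul_eq_one.1 h0)
    rw [this]
    exact c.2
  choose M hMn hMi hM using h1
  have h2 : (⨅ c, M c).Normal := Subgroup.normal_iInf_normal hMn
  refine ⟨⨅ c, M c, h2, ?_, ?_⟩
  · haveI : ∀ c, (M c).FiniteIndex := fun c => ⟨hMi c⟩
    exact (Subgroup.finiteIndex_iInf (fun c => ⟨hMi c⟩)).index_ne_zero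
  · intro m hm hmem
    have h3 := (Subgroup.mem_iInf.1 hm) ⟨h * m, hmem⟩
    apply hM ⟨h * m, hmem⟩
    show h⁻¹ * (h * m) ∈ _
    rw [inv_mul_cancel_left]
    exact h3

lemma closed_index {H : Type} [Group H] (C : Subgroup H) (hC : C.index ≠ 0) : Closed C := by
  intro h hh
  haveI : C.FiniteIndex := ⟨hC⟩
  refine ⟨C.normalCore, inferInstance, Subgroup.FiniteIndex.index_ne_zero, ?_⟩
  intro m hm hmem
  apply hh
  have h1 : m ∈ C := Subgroup.normalCore_le C hm
  have h2 := C.mul_mem hmem (C.inv_mem h1)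
  rwa [mul_inv_cancel_right] at h2

lemma closed_centralizer {H : Type} [Group H] (hH : RF H) (S : Set H) :
    Closed (Subgroup.centralizer S) := by
  intro h hh
  rw [Subgroup.mem_centralizer_iff] at hh
  push Not at hh
  obtain ⟨s, hs, hne⟩ := hh
  obtain ⟨M, hMn, hMi, hM⟩ := hH ((h * s)⁻¹ * (s * h)) (fun h0 => hne (inv_mul_eq_one.1 h0).symm)
  refine ⟨M, hMn, hMi, fun m hm hmem => hM ?_⟩
  rw [Subgroup.mem_centralizer_iff] at hmem
  have h1 := hmem s hs
  -- `s h m = h m s`
  have h2 : (h * s)⁻¹ * (s * h) = (s⁻¹ * m * s) * m⁻¹ := by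
    have h3 : s * h = h * m * s * m⁻¹ := by
      rw [← h1]
      group
    rw [h3]
    group
  rw [h2]
  have h4 := hMn.conj_mem m hm s⁻¹
  rw [inv_inv] at h4
  exact M.mul_mem h4 (M.inv_mem hm)

theorem result (G H : Type) [Group G] [Group H] (u : G →* H) (hu : Onto u) :
    (∀ (V : Type) [MulAction H V] (T : SimpleGraph V), TreeAction H V T → ∀ v : V,
      (∀ g : G, u g • v = v) → (∀ w, T.Adj v w → Closed (edgeStab H v w)) →
        ∀ h : H, h • v = v) ∧
    (FA G → ∀ (V : Type) [MulAction H V] (T : SimpleGraph V), TreeAction H V T →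
      (∀ v w, T.Adj v w → Closed (edgeStab H v w)) → ∃ v : V, ∀ h : H, h • v = v) ∧
    (FA G → RF H → ∀ (V : Type) [MulAction H V] (T : SimpleGraph V), TreeAction H V T →
      (∀ v w, T.Adj v w → Finite (edgeStab H v w) ∨ (edgeStab H v w).index ≠ 0 ∨
        ∃ S : Set H, edgeStab H v w = Subgroup.centralizer S) →
      ∃ v : V, ∀ h : H, h • v = v) := by
  have h1 : ∀ (V : Type) [MulAction H V] (T : SimpleGraph V), TreeAction H V T → ∀ v : V,
      (∀ g : G, u g • v = v) → (∀ w, T.Adj v w → Closed (edgeStab H v w)) →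
        ∀ h : H, h • v = v := by
    intro V _ T hT v hv hc
    refine fixed_of_dense u hu T hT.tree hT.adj hT.noinv v hv ?_
    intro w hw h hh
    obtain ⟨M, hMn, hMi, hM⟩ := hc w hw h hh
    exact ⟨M, hMn, hMi, hM⟩
  have h2 : FA G → ∀ (V : Type) [MulAction H V] (T : SimpleGraph V), TreeAction H V T →
      (∀ v w, T.Adj v w → Closed (edgeStab H v w)) → ∃ v : V, ∀ h : H, h • v = v := by
    intro hG V _ T hT hc
    letI : MulAction G V := MulAction.compHom V u
    obtain ⟨v, hv⟩ := hG V T ⟨hT.tree, fun g x y hxy => hT.adj (u g) x y hxy,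
      fun g x y hxy => hT.noinv (u g) x y hxy⟩
    exact ⟨v, h1 V T hT v hv (hc v)⟩
  refine ⟨h1, h2, ?_⟩
  intro hG hH V _ T hT hc
  refine h2 hG V T hT fun v w hvw => ?_
  rcases hc v w hvw with h | h | ⟨S, h⟩
  · exact closed_finite hH _ h
  · exact closed_index _ h
  · rw [h]
    exact closed_centralizer hH S

end Pool.Agent.Results.MP_d2e081_al.SeparableEdges
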